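import Pool.Agent.Helper61.QE.St5
import Pool.Agent.Helper68.QC.Cal

/-!
# Project QD, PART E, module YGR: the Fuchsian group of the end `Y`
-/

set_option autoImplicit false

open MeasureTheory Set Filter Topology Complex
open scoped ContDiff ComplexConjugate ENNReal

namespace Pool.Agent.Helper8.QE

open Pool.Agent.Helper68.QC Pool.Agent.Helper61.QE

/-- a compact subset of the disc -/
lemma cpt_in_disc (K : Set ℂ) (hK : IsCompact K) (hKD : K ⊆ D) : ∃ r < 1, ∀ z ∈ K, ‖z‖ ≤ r := by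
  rcases K.eq_empty_or_nonempty with h | h
  · exact ⟨0, zero_lt_one, fun z hz => by rw [h] at hz; exact absurd hz (Set.notMem_empty z)⟩
  · obtain ⟨z0, hz0, hmax⟩ := hK.exists_isMaxOn h continuous_norm.continuousOn
    have h1 : ‖z0‖ < 1 := by
      have h2 := hKD hz0
      rwa [mem_ball_zero_iff] at h2
    exact ⟨‖z0‖, h1, fun z hz => hmax hz⟩

/-- the image of a smaller disc -/
lemma image_small (e : ℂ ≃ₜ ℂ) (he : e '' D = D) (r : ℝ) (hr : r < 1) :
    ∃ r' < 1, ∀ z, ‖z‖ ≤ r → ‖e z‖ ≤ r' := by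
  obtain ⟨r', hr', h⟩ := cpt_in_disc (e '' Metric.closedBall 0 r)
    ((isCompact_closedBall 0 r).image e.continuous) (by
      rw [← he]
      exact Set.image_mono (Metric.closedBall_subset_ball hr))
  exact ⟨r', hr', fun z hz => h _ ⟨z, mem_closedBall_zero_iff.2 hz, rfl⟩⟩

/-- the symmetric image -/
lemma symm_image (e : ℂ ≃ₜ ℂ) (he : e '' D = D) : e.symm '' D = D := by
  conv_lhs => rw [← he]
  rw [← Set.image_comp]
  have h : (e.symm : ℂ → ℂ) ∘ e = id := by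
    funext z
    exact e.symm_apply_apply z
  rw [h, Set.image_id]

/-- the normalised solution for the zero coefficient -/
lemma nq_zero (hUNI : StUNI) (μ : ℂ → ℂ) (hμ : ∀ z, μ z = 0) : nq μ = Homeomorph.refl ℂ := by
  have hB : Bel 0 μ := by
    have h : μ = fun _ => 0 := funext hμ
    rw [h]
    exact ⟨measurable_const, fun z => by rw [norm_zero]⟩
  refine (hUNI 0 zero_lt_one μ hB (Homeomorph.refl ℂ) rfl rfl ∅ Set.finite_empty ?_).symm
  rw [Set.compl_empty]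
  refine ⟨dz (fun z => z), dzb (fun z => z), ?_, ?_⟩
  · exact wd_smooth contDiff_id univ
  · refine Filter.Eventually.of_forall fun z => ?_
    rw [hμ, zero_mul]
    exact dzb_holo differentiableAt_id

/-- **YGR** -/
theorem pYGR (_hEX : Pool.Agent.Helper68.QC.StEX) (hUNI : Pool.Agent.Helper68.QC.StUNI)
    (hREP : Pool.Agent.Helper68.QC.StREP) (_hSYC : Pool.Agent.Helper68.QC.StSYC)
    (hSUB : Pool.Agent.Helper61.QE.StSUB) (hEDD : Pool.Agent.Helper61.QE.StEDD)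
    (hCOE : Pool.Agent.Helper61.QE.StCOE) : Pool.Agent.Helper61.QE.StYGR := by
  intro Γ _ s F κ k hs hF hk hK
  have hk0 : 0 ≤ k := (norm_nonneg _).trans (hK.bel.le 0)
  obtain ⟨-, -, hB, hI, hS, -⟩ := hCOE Γ s (fun _ => 0) κ k hs.su
    ⟨differentiableOn_const 0, fun γ => ⟨0, fun z _ => by rw [add_zero]⟩⟩ hk0 hK
  obtain ⟨heD, -, -, -, he0, -, hSU⟩ := hEDD k hk (syY κ) hB hS
  -- the representation
  obtain ⟨σ, hσ⟩ : ∃ σ : Γ →* SL, ∀ γ, Intw (s γ) (σ γ) (nq (syY κ)) := by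
    have hk1 : (0 : ℝ) < 1 + k := by linarith
    have hr1 : (1 : ℝ) < 2 / (1 + k) := by
      rw [lt_div_iff₀ hk1]; linarith
    have hkr : 2 / (1 + k) * k < 1 := by
      rw [div_mul_eq_mul_div, div_lt_iff₀ hk1]; linarith
    have hz : ∀ z : ℂ, (fun (t z : ℂ) => t * syY κ z) 0 z = 0 := fun z => zero_mul _
    obtain ⟨ρ, -, -, hρ⟩ := hREP (2 / (1 + k) * k) hkr 0 (2 / (1 + k)) (fun t z => t * syY κ z)
      (fun t ht => ⟨hB.meas.const_mul t, fun z => by
        rw [norm_mul]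
        rw [mem_ball_zero_iff] at ht
        exact mul_le_mul ht.le (hB.le z) (norm_nonneg _) ((norm_nonneg _).trans ht.le)⟩)
      (fun z => by fun_prop) Γ _ s s
      (fun t _ γ => by
        filter_upwards [hI γ] with z hz
        rw [mul_assoc, hz, mul_assoc])
      (fun γ => by
        rw [nq_zero hUNI _ hz]
        exact ⟨fun z => Iff.rfl, fun z _ => rfl, Iff.rfl, fun _ => rfl⟩)
      (by linarith)
    refine ⟨ρ 1, fun γ => ?_⟩
    have h1 := hρ 1 (by rw [mem_ball_zero_iff, norm_one]; exact hr1) γ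
    have h2 : (fun z : ℂ => (1 : ℂ) * syY κ z) = syY κ := by
      funext z
      exact one_mul _
    rwa [h2] at h1
  have hms : ∀ γ, ∀ z ∈ D, nq (syY κ) (mob (s γ) z) = mob (σ γ) (nq (syY κ) z) := by
    intro γ z hz
    rw [mem_ball_zero_iff] at hz
    exact (hσ γ).2.1 z (hSUB.2.2.2.1 (s γ) (hs.su γ) z hz.le)
  have hsD : nq (syY κ) '' D = D := heD
  have hsy := symm_image _ hsD
  have hsurj : ∀ z ∈ D, ∃ w ∈ D, nq (syY κ) w = z := by
    intro z hz
    rw [← hsD] at hz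
    exact hz
  have h0D : (0 : ℂ) ∈ D := Metric.mem_ball_self one_pos
  have hσ0 : ∀ γ, mob (σ γ) 0 = nq (syY κ) (mob (s γ) 0) := by
    intro γ
    rw [hms γ 0 h0D, he0]
  have hFD : F ⊆ D := by
    obtain ⟨r, hr, h⟩ := hF.cpt
    intro z hz
    rw [mem_ball_zero_iff]
    exact (h z hz).trans_lt hr
  refine ⟨σ, hσ, ⟨?_, ?_, ?_, ?_⟩, ⟨?_, ?_, ?_, ?_⟩⟩
  · exact fun γ => hSU (s γ) (σ γ) (hs.su γ) (hσ γ)
  · intro r hr
    obtain ⟨r', hr', h⟩ := image_small _ hsy r hr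
    refine (hs.disc r' hr').subset fun γ hγ => ?_
    have h1 : ‖mob (σ γ) 0‖ ≤ r := hγ
    rw [hσ0] at h1
    have h2 := h _ h1
    rw [Homeomorph.symm_apply_apply] at h2
    exact h2
  · intro γ hγ z hz h
    obtain ⟨w, hw, rfl⟩ := hsurj z hz
    rw [← hms γ w hw] at h
    exact hs.free γ hγ w hw ((nq (syY κ)).injective h)
  · obtain ⟨r, hr, h⟩ := hs.coc
    obtain ⟨r', hr', h'⟩ := image_small _ hsD r hr
    refine ⟨r', hr', fun z hz => ?_⟩
    obtain ⟨w, hw, rfl⟩ := hsurj z hz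
    obtain ⟨γ, hγ⟩ := h w hw
    refine ⟨γ, ?_⟩
    rw [← hms γ w hw]
    exact h' _ hγ
  · exact (nq (syY κ)).measurableEmbedding.measurableSet_image.2 hF.meas
  · obtain ⟨r, hr, h⟩ := hF.cpt
    obtain ⟨r', hr', h'⟩ := image_small _ hsD r hr
    refine ⟨r', hr', ?_⟩
    rintro _ ⟨w, hw, rfl⟩
    exact h' _ (h w hw)
  · intro z hz
    obtain ⟨w, hw, rfl⟩ := hsurj z hz
    obtain ⟨γ, hγ⟩ := hF.cov w hw
    refine ⟨γ, ?_⟩
    rw [← hms γ w hw]
    exact ⟨_, hγ, rfl⟩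
  · rintro _ ⟨w, hw, rfl⟩ γ h
    rw [← hms γ w (hFD hw)] at h
    obtain ⟨w', hw', h2⟩ := h
    have h3 := (nq (syY κ)).injective h2
    rw [h3] at hw'
    exact hF.uni w hw γ hw'

end Pool.Agent.Helper8.QE
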